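import Pool.Agent.Helper58.Qip.Stmts

set_option autoImplicit false

/-!
Packet K for MP_5bf1c5_pr: maximal inequalities for sums of history-orthogonal functions.
-/

open MeasureTheory ProbabilityTheory Filter Topology

namespace Pool.Agent.Helper17.QipK

/-- Bounded measurable functions. -/
def BM {S : Type} [MeasurableSpace S] (f : S → ℝ) : Prop :=
  Measurable f ∧ ∃ C, ∀ s, |f s| ≤ C

section BMsec

variable {S : Type} [MeasurableSpace S] {f g : S → ℝ}

lemma BM.add (hf : BM f) (hg : BM g) : BM (fun s => f s + g s) := by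
  obtain ⟨hf, C, hC⟩ := hf
  obtain ⟨hg, C', hC'⟩ := hg
  refine ⟨hf.add hg, C + C', fun s => (abs_add_le _ _).trans (add_le_add (hC s) (hC' s))⟩

lemma BM.neg (hf : BM f) : BM (fun s => - f s) := by
  obtain ⟨hf, C, hC⟩ := hf
  exact ⟨hf.neg, C, fun s => by rw [abs_neg]; exact hC s⟩

lemma BM.sub (hf : BM f) (hg : BM g) : BM (fun s => f s - g s) := by
  simpa only [sub_eq_add_neg] using hf.add hg.neg

lemma BM.mul (hf : BM f) (hg : BM g) : BM (fun s => f s * g s) := by
  obtain ⟨hf, C, hC⟩ := hf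
  obtain ⟨hg, C', hC'⟩ := hg
  refine ⟨hf.mul hg, C * C', fun s => ?_⟩
  rw [abs_mul]
  exact mul_le_mul (hC s) (hC' s) (abs_nonneg _) ((abs_nonneg _).trans (hC s))

lemma BM.abs (hf : BM f) : BM (fun s => |f s|) := by
  obtain ⟨hf, C, hC⟩ := hf
  exact ⟨hf.abs, C, fun s => by rw [abs_abs]; exact hC s⟩

lemma BM.sq (hf : BM f) : BM (fun s => f s ^ 2) := by
  simpa only [pow_two] using hf.mul hf

lemma BM.const (c : ℝ) : BM (fun _ : S => c) := ⟨measurable_const, |c|, fun _ => le_rfl⟩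

lemma BM.sum {ι : Type} (I : Finset ι) {F : ι → S → ℝ} (hF : ∀ i ∈ I, BM (F i)) :
    BM (fun s => ∑ i ∈ I, F i s) := by
  classical
  induction I using Finset.induction_on with
  | empty => simpa using BM.const (S := S) 0
  | insert a I ha ih =>
    have h1 := hF a (Finset.mem_insert_self a I)
    have h2 := ih fun i hi => hF i (Finset.mem_insert_of_mem hi)
    simpa only [Finset.sum_insert ha] using h1.add h2

lemma BM.ind {A : Set S} (hA : MeasurableSet A) : BM (A.indicator fun _ => (1 : ℝ)) := by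
  refine ⟨measurable_const.indicator hA, 1, fun s => ?_⟩
  by_cases h : s ∈ A
  · simp [h]
  · simp [h]

lemma BM.integrable {μ : Measure S} [IsProbabilityMeasure μ] (hf : BM f) : Integrable f μ := by
  obtain ⟨hf, C, hC⟩ := hf
  exact Integrable.of_bound hf.aestronglyMeasurable C
    (Eventually.of_forall fun s => by rw [Real.norm_eq_abs]; exact hC s)

end BMsec

/-- Cauchy-Schwarz for bounded measurable functions. -/
lemma cauchy {S : Type} [MeasurableSpace S] (μ : Measure S) [IsProbabilityMeasure μ]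
    {f g : S → ℝ} (hf : BM f) (hg : BM g) :
    ∫ s, f s * g s ∂μ ≤ √(∫ s, f s ^ 2 ∂μ) * √(∫ s, g s ^ 2 ∂μ) := by
  have h : ∀ t : ℝ, 0 ≤ (∫ s, f s ^ 2 ∂μ) * (t * t) + (2 * ∫ s, f s * g s ∂μ) * t
      + ∫ s, g s ^ 2 ∂μ := by
    intro t
    have h1 : ∫ s, (f s * t + g s) ^ 2 ∂μ = (∫ s, f s ^ 2 ∂μ) * (t * t)
        + (2 * ∫ s, f s * g s ∂μ) * t + ∫ s, g s ^ 2 ∂μ := by
      have e1 : ∫ s, (f s * t + g s) ^ 2 ∂μ
          = ∫ s, (f s ^ 2 * (t * t) + (f s * g s) * (2 * t)) + g s ^ 2 ∂μ := by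
        congr 1; funext s; ring
      rw [e1, integral_add, integral_add, integral_mul_const, integral_mul_const]
      · ring
      · exact (hf.sq.mul (BM.const _)).integrable
      · exact ((hf.mul hg).mul (BM.const _)).integrable
      · exact ((hf.sq.mul (BM.const _)).add ((hf.mul hg).mul (BM.const _))).integrable
      · exact hg.sq.integrable
    rw [← h1]
    exact integral_nonneg fun s => sq_nonneg _
  have hd := discrim_le_zero h
  rw [discrim] at hd
  rw [← Real.sqrt_mul (integral_nonneg fun s => sq_nonneg _)]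
  apply Real.le_sqrt_of_sq_le
  nlinarith

section main

variable {S : Type} [MeasurableSpace S] {μ : Measure S} [IsProbabilityMeasure μ]
  {h : ℕ → S → S → Prop} {n : ℕ} {ζ : ℕ → S → ℝ}

/-- The sums. -/
noncomputable def Sm (ζ : ℕ → S → ℝ) (j : ℕ) (s : S) : ℝ := ∑ i ∈ Finset.range j, ζ i s

lemma hmono (h1 : ∀ j s s', h (j + 1) s s' → h j s s') {i j : ℕ} (hij : i ≤ j) {s s' : S}
    (hs : h j s s') : h i s s' := by
  induction j, hij using Nat.le_induction with
  | base => exact hs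
  | succ j _ ih => exact ih (h1 _ _ _ hs)

lemma Sm_hist (h1 : ∀ j s s', h (j + 1) s s' → h j s s')
    (h3 : ∀ j, j < n → ∀ s s', h (j + 1) s s' → ζ j s = ζ j s') {i j : ℕ} (hij : i ≤ j)
    (hj : j ≤ n) {s s' : S} (hs : h j s s') : Sm ζ i s = Sm ζ i s' := by
  apply Finset.sum_congr rfl
  intro k hk
  rw [Finset.mem_range] at hk
  exact h3 k (by omega) s s' (hmono h1 (by omega) hs)

lemma Sm_bm (h2 : ∀ j, j < n → BM (ζ j)) {j : ℕ} (hj : j ≤ n) : BM (Sm ζ j) := by
  apply BM.sum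
  intro i hi
  rw [Finset.mem_range] at hi
  exact h2 i (by omega)

lemma ortho (h1 : ∀ j s s', h (j + 1) s s' → h j s s') (h2 : ∀ j, j < n → BM (ζ j))
    (h4 : ∀ j, j < n → ∀ Y : S → ℝ, BM Y →
      (∀ s s', h j s s' → Y s = Y s') → ∫ s, ζ j s * Y s ∂μ = 0)
    {j : ℕ} (hj : j ≤ n) {Y : S → ℝ} (hY : BM Y) (hYh : ∀ s s', h j s s' → Y s = Y s') :
    ∫ s, (Sm ζ n s - Sm ζ j s) * Y s ∂μ = 0 := by
  have key : ∀ k, j ≤ k → k ≤ n → ∫ s, (Sm ζ k s - Sm ζ j s) * Y s ∂μ = 0 := by
    intro k hjk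
    induction k, hjk using Nat.le_induction with
    | base => intro _; simp
    | succ k hjk ih =>
      intro hkn
      have e : ∫ s, (Sm ζ (k + 1) s - Sm ζ j s) * Y s ∂μ
          = ∫ s, (Sm ζ k s - Sm ζ j s) * Y s + ζ k s * Y s ∂μ := by
        congr 1; funext s
        have : Sm ζ (k + 1) s = Sm ζ k s + ζ k s := Finset.sum_range_succ _ _
        rw [this]; ring
      rw [e, integral_add, ih (by omega), h4 k (by omega) Y hY, zero_add]
      · intro s s' hs
        exact hYh s s' (hmono h1 hjk hs)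
      · exact (((Sm_bm h2 (by omega)).sub (Sm_bm h2 hj)).mul hY).integrable
      · exact ((h2 k (by omega)).mul hY).integrable
  exact key n hj le_rfl

lemma sqSum (h1 : ∀ j s s', h (j + 1) s s' → h j s s') (h2 : ∀ j, j < n → BM (ζ j))
    (h3 : ∀ j, j < n → ∀ s s', h (j + 1) s s' → ζ j s = ζ j s')
    (h4 : ∀ j, j < n → ∀ Y : S → ℝ, BM Y →
      (∀ s s', h j s s' → Y s = Y s') → ∫ s, ζ j s * Y s ∂μ = 0)
    {k : ℕ} (hk : k ≤ n) :
    ∫ s, Sm ζ k s ^ 2 ∂μ = ∑ i ∈ Finset.range k, ∫ s, ζ i s ^ 2 ∂μ := by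
  induction k with
  | zero => simp [Sm]
  | succ k ih =>
    rw [Finset.sum_range_succ, ← ih (by omega)]
    have hb := Sm_bm h2 (show k ≤ n by omega)
    have hz := h2 k (by omega)
    have e : ∫ s, Sm ζ (k + 1) s ^ 2 ∂μ
        = ∫ s, (Sm ζ k s ^ 2 + ζ k s ^ 2) + (ζ k s * Sm ζ k s) * 2 ∂μ := by
      congr 1; funext s
      have : Sm ζ (k + 1) s = Sm ζ k s + ζ k s := Finset.sum_range_succ _ _
      rw [this]; ring
    rw [e, integral_add, integral_add, integral_mul_const, h4 k (by omega) _ hb]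
    · ring
    · intro s s' hs
      exact Sm_hist h1 h3 le_rfl (by omega) hs
    · exact hb.sq.integrable
    · exact hz.sq.integrable
    · exact (hb.sq.add hz.sq).integrable
    · exact ((hz.mul hb).mul (BM.const 2)).integrable

/-- First passage at time `j`. -/
def Fp (ζ : ℕ → S → ℝ) (c : ℝ) (j : ℕ) : Set S :=
  {s | c ≤ |Sm ζ j s| ∧ ∀ i, i < j → |Sm ζ i s| < c}

lemma Fp_meas (h2 : ∀ j, j < n → BM (ζ j)) (c : ℝ) {j : ℕ} (hj : j ≤ n) :
    MeasurableSet (Fp ζ c j) := by
  have e : Fp ζ c j = {s | c ≤ |Sm ζ j s|} ∩ ⋂ i ∈ Finset.range j, {s | |Sm ζ i s| < c} := by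
    ext s
    simp [Fp]
  rw [e]
  apply MeasurableSet.inter
  · exact measurableSet_le measurable_const (Sm_bm h2 hj).1.abs
  · apply Finset.measurableSet_biInter
    intro i hi
    rw [Finset.mem_range] at hi
    exact measurableSet_lt (Sm_bm h2 (by omega)).1.abs measurable_const

lemma Fp_hist (h1 : ∀ j s s', h (j + 1) s s' → h j s s')
    (h3 : ∀ j, j < n → ∀ s s', h (j + 1) s s' → ζ j s = ζ j s') (c : ℝ) {j : ℕ} (hj : j ≤ n)
    {s s' : S} (hs : h j s s') :
    (Fp ζ c j).indicator (fun _ => (1 : ℝ)) s = (Fp ζ c j).indicator (fun _ => (1 : ℝ)) s' := by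
  have e : s ∈ Fp ζ c j ↔ s' ∈ Fp ζ c j := by
    simp only [Fp, Set.mem_ofPred_eq]
    rw [Sm_hist h1 h3 le_rfl hj hs]
    constructor
    · rintro ⟨a, b⟩
      exact ⟨a, fun i hi => by rw [← Sm_hist h1 h3 hi.le hj hs]; exact b i hi⟩
    · rintro ⟨a, b⟩
      exact ⟨a, fun i hi => by rw [Sm_hist h1 h3 hi.le hj hs]; exact b i hi⟩
  by_cases hm : s ∈ Fp ζ c j
  · rw [Set.indicator_of_mem hm, Set.indicator_of_mem (e.1 hm)]
  · rw [Set.indicator_of_notMem hm, Set.indicator_of_notMem (fun h => hm (e.2 h))]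

/-- The event of passing the level `c`. -/
def Ev (ζ : ℕ → S → ℝ) (n : ℕ) (c : ℝ) : Set S := {s | ∃ j ≤ n, c ≤ |Sm ζ j s|}

lemma Ev_sum (ζ : ℕ → S → ℝ) (n : ℕ) (c : ℝ) (s : S) :
    (Ev ζ n c).indicator (fun _ => (1 : ℝ)) s
      = ∑ j ∈ Finset.range (n + 1), (Fp ζ c j).indicator (fun _ => (1 : ℝ)) s := by
  classical
  by_cases hs : s ∈ Ev ζ n c
  · rw [Set.indicator_of_mem hs]
    have hex : ∃ j, c ≤ |Sm ζ j s| := by
      obtain ⟨j, _, hj⟩ := hs; exact ⟨j, hj⟩
    obtain ⟨j, hjn, hj⟩ := hs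
    have hle : Nat.find hex ≤ n := (Nat.find_min' hex hj).trans hjn
    rw [Finset.sum_eq_single (Nat.find hex)]
    · rw [Set.indicator_of_mem]
      exact ⟨Nat.find_spec hex, fun i hi => lt_of_not_ge (Nat.find_min hex hi)⟩
    · intro k _ hk
      rw [Set.indicator_of_notMem]
      rintro ⟨a, b⟩
      rcases lt_or_gt_of_ne hk with hlt | hgt
      · exact Nat.find_min hex hlt a
      · exact absurd (Nat.find_spec hex) (not_le.2 (b _ hgt))
    · intro hnot
      exact absurd (Finset.mem_range.2 (by omega)) hnot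
  · rw [Set.indicator_of_notMem hs]
    symm
    apply Finset.sum_eq_zero
    intro j hj
    rw [Set.indicator_of_notMem]
    rintro ⟨a, _⟩
    exact hs ⟨j, by rw [Finset.mem_range] at hj; omega, a⟩

lemma Ev_meas (h2 : ∀ j, j < n → BM (ζ j)) (c : ℝ) : MeasurableSet (Ev ζ n c) := by
  have e : Ev ζ n c = ⋃ j ∈ Finset.range (n + 1), {s | c ≤ |Sm ζ j s|} := by
    ext s
    simp only [Ev, Set.mem_ofPred_eq, Set.mem_iUnion, Finset.mem_range, exists_prop]
    constructor
    · rintro ⟨j, hj, hc⟩; exact ⟨j, by omega, hc⟩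
    · rintro ⟨j, hj, hc⟩; exact ⟨j, by omega, hc⟩
  rw [e]
  apply Finset.measurableSet_biUnion
  intro j hj
  rw [Finset.mem_range] at hj
  exact measurableSet_le measurable_const (Sm_bm h2 (by omega)).1.abs

lemma real_eq {A : Set S} (hA : MeasurableSet A) :
    μ.real A = ∫ s, A.indicator (fun _ => (1 : ℝ)) s ∂μ := by
  rw [integral_indicator hA]
  simp

/-- First inequality. -/
lemma ineq1 (h1 : ∀ j s s', h (j + 1) s s' → h j s s') (h2 : ∀ j, j < n → BM (ζ j))
    (h3 : ∀ j, j < n → ∀ s s', h (j + 1) s s' → ζ j s = ζ j s')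
    (h4 : ∀ j, j < n → ∀ Y : S → ℝ, BM Y →
      (∀ s s', h j s s' → Y s = Y s') → ∫ s, ζ j s * Y s ∂μ = 0) {c : ℝ} (hc : 0 < c) :
    c ^ 2 * μ.real (Ev ζ n c) ≤ ∫ s, Sm ζ n s ^ 2 ∂μ := by
  have hj : ∀ j ∈ Finset.range (n + 1),
      c ^ 2 * ∫ s, (Fp ζ c j).indicator (fun _ => (1 : ℝ)) s ∂μ ≤
        ∫ s, (Fp ζ c j).indicator (fun _ => (1 : ℝ)) s * Sm ζ n s ^ 2 ∂μ := by
    intro j hj
    rw [Finset.mem_range] at hj
    have hjn : j ≤ n := by omega
    have hI := BM.ind (Fp_meas h2 c hjn)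
    have hSj := Sm_bm h2 hjn
    have hSn := Sm_bm h2 (le_refl n)
    have ho := ortho (μ := μ) h1 h2 h4 hjn (hI.mul hSj) (by
      intro s s' hs
      beta_reduce
      rw [Fp_hist h1 h3 c hjn hs, Sm_hist h1 h3 le_rfl hjn hs])
    rw [← integral_const_mul]
    have e : ∫ s, (Fp ζ c j).indicator (fun _ => (1 : ℝ)) s * Sm ζ n s ^ 2 ∂μ
        = ∫ s, (Fp ζ c j).indicator (fun _ => (1 : ℝ)) s * Sm ζ n s ^ 2
          - (Sm ζ n s - Sm ζ j s) * ((Fp ζ c j).indicator (fun _ => (1 : ℝ)) s * Sm ζ j s) * 2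
            ∂μ := by
      rw [integral_sub, integral_mul_const, ho]
      · ring
      · exact (hI.mul hSn.sq).integrable
      · exact (((hSn.sub hSj).mul (hI.mul hSj)).mul (BM.const 2)).integrable
    rw [e]
    apply integral_mono
    · exact ((BM.const _).mul hI).integrable
    · exact ((hI.mul hSn.sq).sub
        (((hSn.sub hSj).mul (hI.mul hSj)).mul (BM.const 2))).integrable
    · intro s
      beta_reduce
      by_cases hs : s ∈ Fp ζ c j
      · rw [Set.indicator_of_mem hs]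
        have hcs : c ≤ |Sm ζ j s| := hs.1
        have : c ^ 2 ≤ Sm ζ j s ^ 2 := by
          rw [← sq_abs (Sm ζ j s)]
          exact pow_le_pow_left₀ hc.le hcs 2
        nlinarith [sq_nonneg (Sm ζ n s - Sm ζ j s)]
      · rw [Set.indicator_of_notMem hs]
        simp
  rw [real_eq (Ev_meas h2 c)]
  simp_rw [Ev_sum]
  rw [integral_finsetSum, Finset.mul_sum]
  · refine (Finset.sum_le_sum hj).trans ?_
    rw [← integral_finsetSum]
    · apply integral_mono
      · apply BM.integrable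
        apply BM.sum
        intro i hi
        rw [Finset.mem_range] at hi
        exact (BM.ind (Fp_meas h2 c (by omega))).mul (Sm_bm h2 le_rfl).sq
      · exact (Sm_bm h2 le_rfl).sq.integrable
      · intro s
        beta_reduce
        rw [← Finset.sum_mul, ← Ev_sum]
        have h01 : (Ev ζ n c).indicator (fun _ => (1 : ℝ)) s ≤ 1 := by
          by_cases hs : s ∈ Ev ζ n c
          · simp [hs]
          · simp [hs]
        nlinarith [sq_nonneg (Sm ζ n s)]
    · intro i hi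
      rw [Finset.mem_range] at hi
      exact ((BM.ind (Fp_meas h2 c (by omega))).mul (Sm_bm h2 le_rfl).sq).integrable
  · intro i hi
    rw [Finset.mem_range] at hi
    exact (BM.ind (Fp_meas h2 c (by omega))).integrable

/-- The sign of a real number as a real number, with value one at zero. -/
noncomputable def sg (x : ℝ) : ℝ := if 0 ≤ x then 1 else -1

lemma sg_mul (x : ℝ) : sg x * x = |x| := by
  unfold sg
  split_ifs with hx
  · rw [abs_of_nonneg hx, one_mul]
  · rw [abs_of_neg (not_le.1 hx)]; ring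

lemma sg_mul_le (x y : ℝ) : sg x * y ≤ |y| := by
  unfold sg
  split_ifs with hx
  · rw [one_mul]; exact le_abs_self y
  · have := neg_abs_le y; linarith

lemma sg_bm {f : S → ℝ} (hf : BM f) : BM (fun s => sg (f s)) := by
  refine ⟨?_, 1, fun s => ?_⟩
  · unfold sg
    exact Measurable.ite (measurableSet_le measurable_const hf.1) measurable_const
      measurable_const
  · change |if 0 ≤ f s then (1 : ℝ) else -1| ≤ 1
    split_ifs <;> simp

/-- Second inequality. -/
lemma ineq2 (h1 : ∀ j s s', h (j + 1) s s' → h j s s') (h2 : ∀ j, j < n → BM (ζ j))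
    (h3 : ∀ j, j < n → ∀ s s', h (j + 1) s s' → ζ j s = ζ j s')
    (h4 : ∀ j, j < n → ∀ Y : S → ℝ, BM Y →
      (∀ s s', h j s s' → Y s = Y s') → ∫ s, ζ j s * Y s ∂μ = 0) {c : ℝ} (hc : 0 < c) :
    c * μ.real (Ev ζ n c) ≤
      ∫ s, (Ev ζ n c).indicator (fun _ => (1 : ℝ)) s * |Sm ζ n s| ∂μ := by
  have hj : ∀ j ∈ Finset.range (n + 1),
      c * ∫ s, (Fp ζ c j).indicator (fun _ => (1 : ℝ)) s ∂μ ≤
        ∫ s, (Fp ζ c j).indicator (fun _ => (1 : ℝ)) s * |Sm ζ n s| ∂μ := by
    intro j hj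
    rw [Finset.mem_range] at hj
    have hjn : j ≤ n := by omega
    have hI := BM.ind (Fp_meas h2 c hjn)
    have hSj := Sm_bm h2 hjn
    have hSn := Sm_bm h2 (le_refl n)
    have ho := ortho (μ := μ) h1 h2 h4 hjn (hI.mul (sg_bm hSj)) (by
      intro s s' hs
      beta_reduce
      rw [Fp_hist h1 h3 c hjn hs, Sm_hist h1 h3 le_rfl hjn hs])
    rw [← integral_const_mul]
    have e : ∫ s, (Fp ζ c j).indicator (fun _ => (1 : ℝ)) s * |Sm ζ n s| ∂μ
        = ∫ s, (Fp ζ c j).indicator (fun _ => (1 : ℝ)) s * |Sm ζ n s|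
          - (Sm ζ n s - Sm ζ j s) * ((Fp ζ c j).indicator (fun _ => (1 : ℝ)) s
            * sg (Sm ζ j s)) ∂μ := by
      rw [integral_sub, ho, sub_zero]
      · exact (hI.mul hSn.abs).integrable
      · exact ((hSn.sub hSj).mul (hI.mul (sg_bm hSj))).integrable
    rw [e]
    apply integral_mono
    · exact ((BM.const _).mul hI).integrable
    · exact ((hI.mul hSn.abs).sub ((hSn.sub hSj).mul (hI.mul (sg_bm hSj)))).integrable
    · intro s
      beta_reduce
      by_cases hs : s ∈ Fp ζ c j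
      · rw [Set.indicator_of_mem hs]
        have hcs : c ≤ |Sm ζ j s| := hs.1
        have a1 := sg_mul (Sm ζ j s)
        have a2 := sg_mul_le (Sm ζ j s) (Sm ζ n s)
        nlinarith
      · rw [Set.indicator_of_notMem hs]
        simp
  rw [real_eq (Ev_meas h2 c)]
  have e0 : ∫ s, (Ev ζ n c).indicator (fun _ => (1 : ℝ)) s * |Sm ζ n s| ∂μ
      = ∑ j ∈ Finset.range (n + 1),
        ∫ s, (Fp ζ c j).indicator (fun _ => (1 : ℝ)) s * |Sm ζ n s| ∂μ := by
    rw [← integral_finsetSum]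
    · congr 1; funext s
      rw [← Finset.sum_mul, ← Ev_sum]
    · intro i hi
      rw [Finset.mem_range] at hi
      exact ((BM.ind (Fp_meas h2 c (by omega))).mul (Sm_bm h2 le_rfl).abs).integrable
  rw [e0]
  simp_rw [Ev_sum]
  rw [integral_finsetSum, Finset.mul_sum]
  · exact Finset.sum_le_sum hj
  · intro i hi
    rw [Finset.mem_range] at hi
    exact (BM.ind (Fp_meas h2 c (by omega))).integrable

end main

theorem stmtK : Pool.Agent.Helper58.Qip.StmtK := by
  intro S _ μ _ h n ζ h1 h2 h3 h4 lam hlam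
  have h4' : ∀ j, j < n → ∀ Y : S → ℝ, BM Y →
      (∀ s s', h j s s' → Y s = Y s') → ∫ s, ζ j s * Y s ∂μ = 0 :=
    fun j hj Y hY hh => h4 j hj Y hY.1 hY.2 hh
  have h2' : ∀ j, j < n → BM (ζ j) := h2
  have hsq := sqSum (μ := μ) h1 h2' h3 h4' le_rfl
  rw [← hsq]
  constructor
  · have := ineq1 (μ := μ) h1 h2' h3 h4' hlam
    rw [le_div_iff₀ (by positivity), mul_comm]
    exact this
  · have h2l : 0 < 2 * lam := by positivity
    have hk := ineq2 (μ := μ) h1 h2' h3 h4' h2l
    have hSn := Sm_bm h2' (le_refl n)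
    have hEm := Ev_meas h2' (2 * lam)
    have hBm : MeasurableSet {s | lam ≤ |Sm ζ n s|} :=
      measurableSet_le measurable_const hSn.1.abs
    have hE := BM.ind hEm
    have hB := BM.ind hBm
    have step1 : ∫ s, (Ev ζ n (2 * lam)).indicator (fun _ => (1 : ℝ)) s * |Sm ζ n s| ∂μ
        ≤ ∫ s, |Sm ζ n s| * ({s | lam ≤ |Sm ζ n s|}).indicator (fun _ => (1 : ℝ)) s
          + lam * (Ev ζ n (2 * lam)).indicator (fun _ => (1 : ℝ)) s ∂μ := by
      apply integral_mono
      · exact (hE.mul hSn.abs).integrable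
      · exact ((hSn.abs.mul hB).add ((BM.const _).mul hE)).integrable
      · intro s
        beta_reduce
        have hn := abs_nonneg (Sm ζ n s)
        by_cases hs : s ∈ Ev ζ n (2 * lam)
        · rw [Set.indicator_of_mem hs]
          by_cases hs' : s ∈ {s | lam ≤ |Sm ζ n s|}
          · rw [Set.indicator_of_mem hs']
            nlinarith
          · rw [Set.indicator_of_notMem hs']
            have : |Sm ζ n s| < lam := not_le.1 hs'
            linarith
        · rw [Set.indicator_of_notMem hs]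
          have : 0 ≤ ({s | lam ≤ |Sm ζ n s|}).indicator (fun _ => (1 : ℝ)) s :=
            Set.indicator_nonneg (fun _ _ => zero_le_one) _
          nlinarith
    rw [integral_add (hSn.abs.mul hB).integrable ((BM.const _).mul hE).integrable,
      integral_const_mul, ← real_eq hEm] at step1
    have step2 := cauchy μ hSn.abs hB
    have e1 : ∫ s, |Sm ζ n s| ^ 2 ∂μ = ∫ s, Sm ζ n s ^ 2 ∂μ := by
      congr 1; funext s; exact sq_abs _
    have e2 : ∫ s, (({s | lam ≤ |Sm ζ n s|}).indicator (fun _ => (1 : ℝ)) s) ^ 2 ∂μ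
        = μ.real {s | lam ≤ |Sm ζ n s|} := by
      rw [real_eq hBm]
      congr 1; funext s
      by_cases hs' : s ∈ {s | lam ≤ |Sm ζ n s|}
      · rw [Set.indicator_of_mem hs']; norm_num
      · rw [Set.indicator_of_notMem hs']; norm_num
    rw [e1, e2] at step2
    have fin : lam * μ.real (Ev ζ n (2 * lam)) ≤
        √(∫ s, Sm ζ n s ^ 2 ∂μ) * √(μ.real {s | lam ≤ |Sm ζ n s|}) := by
      linarith
    have : μ.real (Ev ζ n (2 * lam)) ≤
        √(∫ s, Sm ζ n s ^ 2 ∂μ) * √(μ.real {s | lam ≤ |Sm ζ n s|}) / lam := by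
      rw [le_div_iff₀ hlam]; linarith
    change μ.real (Ev ζ n (2 * lam)) ≤
        √(∫ s, Sm ζ n s ^ 2 ∂μ) / lam * √(μ.real {s | lam ≤ |Sm ζ n s|})
    calc μ.real (Ev ζ n (2 * lam)) ≤ _ := this
      _ = _ := by ring

end Pool.Agent.Helper17.QipK
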